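import Mathlib
import Pool.Agent.Lib.MP_32a6f5_nt.Asym
import Pool.Agent.Lib.MP_32a6f5_nt.OddExp
import Pool.Agent.Lib.MP_32a6f5_nt.Small
import Pool.Agent.Lib.MP_32a6f5_nt.Pairs13

/-! Pairs `(a, b)` with `2 ^ a - 2 ^ b ∣ n ^ a - n ^ b`: it is enough to test `n = 3` when
`a - b` is odd or smaller than `2 ^ 15`, and the primes `n ≤ L ^ 2` otherwise, where
`L = Nat.log 2 (a - b) + 1` is the number of binary digits of `a - b`. -/

namespace Pool.Agent.Results.MP_32a6f5_nt.LogSquareWitness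

open Pool.Agent.Lib.MP_32a6f5_nt

theorem cast_dvd {k b n : ℕ} (hn : 1 ≤ n)
    (h : ((2 : ℤ) ^ (b + k) - 2 ^ b) ∣ (n : ℤ) ^ (b + k) - (n : ℤ) ^ b) :
    2 ^ b * (2 ^ k - 1) ∣ n ^ b * (n ^ k - 1) := by
  have e : ∀ m : ℕ, 1 ≤ m → ((m ^ b * (m ^ k - 1) : ℕ) : ℤ) = (m : ℤ) ^ (b + k) - (m : ℤ) ^ b := by
    intro m hm
    have h1 : 1 ≤ m ^ k := Nat.one_le_pow _ _ hm
    push_cast [Nat.cast_sub h1]
    ring
  rw [← Int.natCast_dvd_natCast, e 2 (by norm_num), e n hn]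
  exact_mod_cast h

/-- For `k ≥ 2 ^ 15` some prime `p ≤ (Nat.log 2 k + 1) ^ 2` fails. -/
theorem exists_bad {k b : ℕ} (hk : 2 ^ 15 ≤ k)
    (H : ∀ p : ℕ, p.Prime → p ≤ (Nat.log 2 k + 1) ^ 2 → 2 ^ k - 1 ∣ p ^ b * (p ^ k - 1)) : False := by
  set L := Nat.log 2 k + 1 with hL
  have h1 : 2 ^ (L - 1) ≤ k := by
    rw [hL, Nat.add_sub_cancel]
    exact Nat.pow_log_le_self 2 (by positivity)
  have h2 : k < 2 ^ L := Nat.lt_pow_succ_log_self (by norm_num) k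
  have hL16 : 16 ≤ L := by
    by_contra hlt
    have : 2 ^ L ≤ 2 ^ 15 := Nat.pow_le_pow_right (by norm_num) (by omega)
    omega
  obtain ⟨a, W, X, hX, hW, hcrit, hcount⟩ := good_all hL16
  obtain ⟨q, e, hq, hkq, hXq, hd⟩ := exists_big h1 (by positivity) h2 hX hW hcrit
  have hLk : L ^ 2 ≤ 2 ^ (L - 1) := by
    have : ∀ n : ℕ, 8 ≤ n → n ^ 2 ≤ 2 ^ (n - 1) := by
      intro n hn
      induction n, hn using Nat.le_induction with
      | base => norm_num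
      | succ n hn ih =>
        have e : n + 1 - 1 = (n - 1) + 1 := by omega
        rw [e, pow_succ 2 (n - 1)]
        nlinarith
    exact this L (by omega)
  have h3 := card_smooth_le (by omega) hq (lt_of_le_of_lt (hLk.trans h1) hkq) hXq hd H
  omega

theorem result (a b : ℕ) (hb : 1 ≤ b) (hab : b < a) :
    List.TFAE [
      ∀ n : ℤ, ((2 : ℤ) ^ a - 2 ^ b) ∣ n ^ a - n ^ b,
      ∀ p : ℕ, p.Prime → p ≤ (Nat.log 2 (a - b) + 1) ^ 2 + 2 →
        ((2 : ℤ) ^ a - 2 ^ b) ∣ (p : ℤ) ^ a - (p : ℤ) ^ b,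
      ((2 : ℤ) ^ a - 2 ^ b) ∣ 3 ^ a - 3 ^ b ∧ (2 ^ 15 ≤ a - b → Even (a - b) → ∀ p : ℕ, p.Prime →
        p ≤ (Nat.log 2 (a - b) + 1) ^ 2 → ((2 : ℤ) ^ a - 2 ^ b) ∣ (p : ℤ) ^ a - (p : ℤ) ^ b),
      (a, b) ∈ ([(2, 1), (3, 1), (4, 2), (5, 1), (5, 3), (6, 2), (7, 3), (8, 2), (8, 4), (9, 3),
        (14, 2), (15, 3), (16, 4)] : List (ℕ × ℕ))] := by
  obtain ⟨k, rfl⟩ : ∃ k, a = b + k := ⟨a - b, by omega⟩
  have hk : 1 ≤ k := by omega
  have hsub : b + k - b = k := by omega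
  rw [hsub]
  tfae_have 1 → 2 := fun h p _ _ => h p
  tfae_have 2 → 3 := by
    intro h
    refine ⟨?_, fun _ _ p hp hle => h p hp (by omega)⟩
    have h1 : 1 ≤ (Nat.log 2 k + 1) ^ 2 := Nat.one_le_pow _ _ (by omega)
    exact_mod_cast h 3 Nat.prime_three (by omega)
  tfae_have 3 → 4 := by
    rintro ⟨h3, hp⟩
    have h3' : 2 ^ b * (2 ^ k - 1) ∣ 3 ^ b * (3 ^ k - 1) := cast_dvd (n := 3) (by norm_num)
      (by exact_mod_cast h3)
    have h3'' : (2 ^ k - 1) ∣ 3 ^ b * (3 ^ k - 1) := (Dvd.intro_left _ rfl).trans h3'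
    have hklt : k < 2 ^ 15 := by
      by_contra hge
      push Not at hge
      rcases Nat.even_or_odd k with he | ho
      · refine exists_bad (k := k) (b := b) hge ?_
        intro p hpp hle
        exact (Dvd.intro_left _ rfl).trans (cast_dvd hpp.one_le (hp hge he p hpp hle))
      · exact odd_not_dvd ho (by omega) h3''
    have hsmall := small_k hk (by norm_num at hklt; omega) h3''
    rcases test_three hb hsmall h3' with ⟨rfl, rfl⟩ | ⟨rfl, rfl | rfl | rfl⟩ |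
      ⟨rfl, rfl | rfl | rfl | rfl⟩ | ⟨rfl, rfl | rfl⟩ | ⟨rfl, rfl | rfl | rfl⟩ <;> simp
  tfae_have 4 → 1 := fun h n => forall_int h n
  tfae_finish

end Pool.Agent.Results.MP_32a6f5_nt.LogSquareWitness
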